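import Pool.Agent.Lib.MP_acafa7_al.MS.Iface1

/-! Angles of a Euclidean triangle from its sides. -/

namespace MSG.H09

open MSG

theorem heron_pos {a b c : ℝ} (ha : 0 < a) (hb : 0 < b) (hc : 0 < c) (h1 : a < b + c)
    (h2 : b < a + c) (h3 : c < a + b) :
    0 < 2 * (a ^ 2 * b ^ 2 + b ^ 2 * c ^ 2 + c ^ 2 * a ^ 2) - (a ^ 4 + b ^ 4 + c ^ 4) := by
  have e : 2 * (a ^ 2 * b ^ 2 + b ^ 2 * c ^ 2 + c ^ 2 * a ^ 2) - (a ^ 4 + b ^ 4 + c ^ 4) =
      (a + b + c) * (b + c - a) * (a + c - b) * (a + b - c) := by ring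
  rw [e]
  have p1 : 0 < a + b + c := by linarith
  have p2 : 0 < b + c - a := by linarith
  have p3 : 0 < a + c - b := by linarith
  have p4 : 0 < a + b - c := by linarith
  positivity

theorem arg_bounds {a b c : ℝ} (ha : 0 < a) (hb : 0 < b) (hc : 0 < c) (h1 : a < b + c)
    (h2 : b < a + c) (h3 : c < a + b) :
    -1 < (a ^ 2 + b ^ 2 - c ^ 2) / (2 * a * b) ∧ (a ^ 2 + b ^ 2 - c ^ 2) / (2 * a * b) < 1 := by
  have hab : 0 < 2 * a * b := by positivity
  constructor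
  · rw [lt_div_iff₀ hab]
    nlinarith
  · rw [div_lt_one hab]
    nlinarith [mul_pos (show 0 < c + a - b by linarith) (show 0 < c + b - a by linarith)]

theorem sin_ang {a b c : ℝ} (ha : 0 < a) (hb : 0 < b) (_ : 0 < c) (_ : a < b + c)
    (_ : b < a + c) (_ : c < a + b) :
    Real.sin (ang a b c) =
      Real.sqrt (2 * (a ^ 2 * b ^ 2 + b ^ 2 * c ^ 2 + c ^ 2 * a ^ 2) - (a ^ 4 + b ^ 4 + c ^ 4)) /
        (2 * a * b) := by
  have hab : 0 < 2 * a * b := by positivity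
  have hne : a ≠ 0 := ne_of_gt ha
  have hne' : b ≠ 0 := ne_of_gt hb
  unfold ang
  rw [Real.sin_arccos]
  have e : 1 - ((a ^ 2 + b ^ 2 - c ^ 2) / (2 * a * b)) ^ 2 =
      (2 * (a ^ 2 * b ^ 2 + b ^ 2 * c ^ 2 + c ^ 2 * a ^ 2) - (a ^ 4 + b ^ 4 + c ^ 4)) /
        (2 * a * b) ^ 2 := by
    field_simp
    ring
  rw [e, Real.sqrt_div' _ (by positivity), Real.sqrt_sq hab.le]

theorem cos_ang {a b c : ℝ} (ha : 0 < a) (hb : 0 < b) (hc : 0 < c) (h1 : a < b + c)
    (h2 : b < a + c) (h3 : c < a + b) :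
    Real.cos (ang a b c) = (a ^ 2 + b ^ 2 - c ^ 2) / (2 * a * b) := by
  obtain ⟨u, v⟩ := arg_bounds ha hb hc h1 h2 h3
  unfold ang
  rw [Real.cos_arccos u.le v.le]

theorem ang_range {a b c : ℝ} (ha : 0 < a) (hb : 0 < b) (hc : 0 < c) (h1 : a < b + c)
    (h2 : b < a + c) (h3 : c < a + b) : 0 < ang a b c ∧ ang a b c < Real.pi := by
  obtain ⟨u, v⟩ := arg_bounds ha hb hc h1 h2 h3
  unfold ang
  refine ⟨Real.arccos_pos.2 v, ?_⟩
  refine lt_of_le_of_ne (Real.arccos_le_pi _) ?_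
  intro h
  rw [Real.arccos_eq_pi] at h
  linarith

theorem ang : AngStatement := by
  intro a b c ha hb hc h1 h2 h3
  have r1 := ang_range ha hb hc h1 h2 h3
  have h1' : a < b + c := h1
  have r2 := ang_range hb hc ha (a := b) (b := c) (c := a) (by linarith) (by linarith) (by linarith)
  have r3 := ang_range hc ha hb (a := c) (b := a) (c := b) (by linarith) (by linarith) (by linarith)
  refine ⟨r1.1, r1.2, ?_, ?_⟩
  · have s2 := sin_ang hb hc ha (a := b) (b := c) (c := a) (by linarith) (by linarith) (by linarith)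
    have s3 := sin_ang hc ha hb (a := c) (b := a) (c := b) (by linarith) (by linarith) (by linarith)
    have c1 := cos_ang ha hb hc h1 h2 h3
    have c2 := cos_ang hb hc ha (a := b) (b := c) (c := a) (by linarith) (by linarith) (by linarith)
    have c3 := cos_ang hc ha hb (a := c) (b := a) (c := b) (by linarith) (by linarith) (by linarith)
    have e2 : 2 * (b ^ 2 * c ^ 2 + c ^ 2 * a ^ 2 + a ^ 2 * b ^ 2) - (b ^ 4 + c ^ 4 + a ^ 4) =
        2 * (a ^ 2 * b ^ 2 + b ^ 2 * c ^ 2 + c ^ 2 * a ^ 2) - (a ^ 4 + b ^ 4 + c ^ 4) := by ring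
    have e3 : 2 * (c ^ 2 * a ^ 2 + a ^ 2 * b ^ 2 + b ^ 2 * c ^ 2) - (c ^ 4 + a ^ 4 + b ^ 4) =
        2 * (a ^ 2 * b ^ 2 + b ^ 2 * c ^ 2 + c ^ 2 * a ^ 2) - (a ^ 4 + b ^ 4 + c ^ 4) := by ring
    rw [e2] at s2
    rw [e3] at s3
    have hK := heron_pos ha hb hc h1 h2 h3
    set K := 2 * (a ^ 2 * b ^ 2 + b ^ 2 * c ^ 2 + c ^ 2 * a ^ 2) - (a ^ 4 + b ^ 4 + c ^ 4) with hKdef
    have hsq : Real.sqrt K * Real.sqrt K = K := Real.mul_self_sqrt hK.le
    have hsp : 0 < Real.sqrt K := Real.sqrt_pos.2 hK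
    set k := Real.sqrt K with hk
    have hna : a ≠ 0 := ne_of_gt ha
    have hnb : b ≠ 0 := ne_of_gt hb
    have hnc : c ≠ 0 := ne_of_gt hc
    have hcos : Real.cos (MSG.ang b c a + MSG.ang c a b) = Real.cos (Real.pi - MSG.ang a b c) := by
      rw [Real.cos_add, Real.cos_pi_sub, c1, c2, c3, s2, s3]
      have : k / (2 * b * c) * (k / (2 * c * a)) = K / (4 * a * b * c ^ 2) := by
        rw [div_mul_div_comm, hsq]
        congr 1
        ring
      rw [this, hKdef]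
      field_simp
      ring
    have hsin : 0 < Real.sin (MSG.ang b c a + MSG.ang c a b) := by
      rw [Real.sin_add, c2, c3, s2, s3]
      have : k / (2 * b * c) * ((c ^ 2 + a ^ 2 - b ^ 2) / (2 * c * a)) +
          (b ^ 2 + c ^ 2 - a ^ 2) / (2 * b * c) * (k / (2 * c * a)) = k / (2 * a * b) := by
        field_simp
        ring
      rw [this]
      positivity
    have hlt : MSG.ang b c a + MSG.ang c a b < Real.pi := by
      by_contra hge
      push Not at hge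
      have h0 : 0 ≤ MSG.ang b c a + MSG.ang c a b - Real.pi := by linarith
      have h0' : MSG.ang b c a + MSG.ang c a b - Real.pi ≤ Real.pi := by linarith [r2.2, r3.2]
      have := Real.sin_nonneg_of_nonneg_of_le_pi h0 h0'
      rw [Real.sin_sub_pi] at this
      linarith
    have := Real.injOn_cos (x₁ := MSG.ang b c a + MSG.ang c a b) (x₂ := Real.pi - MSG.ang a b c)
      ⟨by linarith [r2.1, r3.1], hlt.le⟩ ⟨by linarith [r1.2], by linarith [r1.1]⟩ hcos
    linarith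
  · unfold MSG.ang
    congr 1
    rw [show b ^ 2 + a ^ 2 - c ^ 2 = a ^ 2 + b ^ 2 - c ^ 2 by ring,
      show 2 * b * a = 2 * a * b by ring]

end MSG.H09
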