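import Pool.Agent.Lib.MP_acafa7_al.MS.H09.DelEdge

/-! Absorbing a triangle into a face. -/

namespace MSG.H09

open MSG Classical

theorem abs : AbsStatement := by
  intro V D _ a M d hT hd1 hd2
  obtain ⟨⟨t3, t1⟩, th⟩ := hT
  have hne : M.ι d ≠ d := M.ne d
  have hJ : ∀ u v : D, M.φ u = M.φ v → u = v := fun u v h => M.φ.injective h
  -- the darts of the triangle
  have h21 : M.φ (M.φ (M.ι d)) ≠ M.ι d := by
    intro h
    rw [h] at t3
    exact t1 t3
  have hqe : M.φ d ≠ M.ι d := by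
    intro h
    rw [← t3] at h
    exact hd2 (M.φ.injective h)
  let F : D → D := fun x => if M.φ x = d then M.φ (M.ι d) else if M.φ x = M.ι d then
        (if M.φ d = d then M.φ (M.ι d) else M.φ d) else M.φ x
  let H : D → ℤ := fun x => if M.φ x = d then M.h x + M.γ d + M.h (M.ι d)
        else if M.φ x = M.ι d then
          (if M.φ d = d then M.h x + M.h d + M.h (M.ι d) else M.h x - M.γ d + M.h d)
        else M.h x
  have hF : ∀ x, x ≠ d → x ≠ M.ι d → F x ≠ d ∧ F x ≠ M.ι d := by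
    intro x h1 h2
    simp only [F]
    split_ifs with c1 c2 c3
    · exact ⟨hd1.symm, t1⟩
    · exact ⟨hd1.symm, t1⟩
    · exact ⟨c3, hqe⟩
    · exact ⟨c1, c2⟩
  have hinj : ∀ x y, x ≠ d → x ≠ M.ι d → y ≠ d → y ≠ M.ι d → F x = F y → x = y := by
    intro x y h1 h2 h3 h4 h
    simp only [F] at h
    clear_value F H
    clear hF th H F
    split_ifs at h <;> grind
  have te := M.tgt (M.ι d)
  rw [M.ιι, M.γι] at te
  have td := M.tgt d
  have e1 : M.f d = (a ^ (M.γ d + M.h (M.ι d))) (M.f (M.φ (M.ι d))) := by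
    rw [pw, ← te, ← pw]
    simp
  have htgt : ∀ x, x ≠ d → x ≠ M.ι d → (a ^ M.γ x) (M.f (M.ι x)) = (a ^ H x) (M.f (F x)) := by
    intro x h1 h2
    have tx := M.tgt x
    have e2 : M.f (M.ι d) = (a ^ (-M.γ d + M.h d)) (M.f (M.φ d)) := by
      rw [pw, ← td, ← pw]
      simp
    simp only [F, H]
    split_ifs with c1 c2 c3
    · rw [tx, c1, e1, ← pw]
      congr 2
      ring
    · rw [tx, c2, e2, c3, e1, ← pw, ← pw]
      congr 2
      ring
    · rw [tx, c2, e2, ← pw]
      congr 2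
      ring
    · exact tx
  let M' := subMap M d F H hF hinj htgt
  have hr : ∀ x : D, (∃ x' : {x : D // x ≠ d ∧ x ≠ M.ι d}, x'.1 = x) ↔ (x ≠ d ∧ x ≠ M.ι d) := by
    intro x
    constructor
    · rintro ⟨x', rfl⟩
      exact x'.2
    · intro h
      exact ⟨⟨x, h⟩, rfl⟩
  have hι : ∀ x : {x : D // x ≠ d ∧ x ≠ M.ι d}, (M'.ι x).1 = M.ι x.1 := fun _ => rfl
  have hφ : ∀ x : {x : D // x ≠ d ∧ x ≠ M.ι d}, (M'.φ x).1 = F x.1 := fun _ => rfl
  have p1 : P1 M.toDMap M'.toDMap (fun x => x.1) := by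
    intro T g hg x
    show g (M'.φ x).1 = g (M.φ x.1)
    rw [hφ]
    simp only [F]
    split_ifs with c1 c2 c3
    · rw [c1, hg, M.ιι]
    · rw [c2, ← hg, c3, hg, M.ιι]
    · rw [c2, ← hg]
    · rfl
  have p2 : P2 M.toDMap M'.toDMap (fun x => x.1) d := by
    intro T g'
    let E : D → D := fun x => if x = d then M.φ (M.ι d) else if x = M.ι d then
      (if M.φ d = d then M.φ (M.ι d) else M.φ d) else x
    have hE : ∀ x, E x ≠ d ∧ E x ≠ M.ι d := by
      intro x
      simp only [E]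
      split_ifs with c1 c2 c3
      · exact ⟨hd1.symm, t1⟩
      · exact ⟨hd1.symm, t1⟩
      · exact ⟨c3, hqe⟩
      · exact ⟨c1, c2⟩
    refine ⟨fun x => g' ⟨E x, hE x⟩, ?_, ?_, ?_, ?_⟩
    · intro x
      have : E x.1 = x.1 := by
        simp only [E]
        rw [if_neg x.2.1, if_neg x.2.2]
      show g' ⟨E x.1, _⟩ = g' x
      congr 1
      exact Subtype.ext this
    · intro x
      show g' ⟨E (M.φ x.1), _⟩ = g' (M'.φ x)
      congr 1
    · show g' ⟨E (M.φ d), _⟩ = g' ⟨E (M.ι d), _⟩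
      congr 1
      apply Subtype.ext
      show E (M.φ d) = E (M.ι d)
      simp only [E]
      rw [if_neg hqe, if_neg hne]
      simp
    · show g' ⟨E (M.φ (M.ι d)), _⟩ = g' ⟨E d, _⟩
      congr 1
      apply Subtype.ext
      show E (M.φ (M.ι d)) = E d
      simp only [E]
      rw [if_neg hd1.symm, if_neg t1]
      simp
  refine ⟨{x : D // x ≠ d ∧ x ≠ M.ι d}, inferInstance, M', fun x => x.1,
    Subtype.val_injective, hr, fun _ => rfl, fun _ => rfl, fun _ => rfl, fun _ => rfl,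
    fun _ => rfl, ?_, ?_⟩
  · exact sameV_iff hr (fun _ => rfl) p1 p2
  · exact planar_tr hr (fun _ => rfl) p1 p2

end MSG.H09
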