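import Pool.Agent.Lib.MP_acafa7_al.MS.H09.DelEdge

/-! Removal of a hair. -/

namespace MSG.H09

open MSG Classical

theorem hair : HairStatement := by
  intro V D _ a hfree M d hd hq
  have hne : M.ι d ≠ d := M.ne d
  have hJ : ∀ u v : D, M.φ u = M.φ v → u = v := fun u v h => M.φ.injective h
  have hqe : M.φ (M.ι d) ≠ M.ι d := by
    intro h
    exact hne (hJ _ _ (h.trans hd.symm))
  let F : D → D := fun x => if M.φ x = d then M.φ (M.ι d) else M.φ x
  let H : D → ℤ := fun x => if M.φ x = d then M.h x + M.h d + M.h (M.φ d) else M.h x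
  have hF : ∀ x, x ≠ d → x ≠ M.ι d → F x ≠ d ∧ F x ≠ M.ι d := by
    intro x h1 h2
    simp only [F]
    split_ifs with c1
    · exact ⟨hq, hqe⟩
    · refine ⟨c1, ?_⟩
      intro h
      exact h1 (hJ _ _ (h.trans hd.symm))
  have hinj : ∀ x y, x ≠ d → x ≠ M.ι d → y ≠ d → y ≠ M.ι d → F x = F y → x = y := by
    intro x y h1 h2 h3 h4 h
    simp only [F] at h
    clear_value F H
    clear hF H F
    split_ifs at h <;> grind
  have te := M.tgt (M.ι d)
  rw [M.ιι, M.γι] at te
  have td := M.tgt d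
  rw [hd] at td
  have hγ : M.γ d = M.h d := by
    have h0 : (a ^ (-M.h d + M.γ d)) (M.f (M.ι d)) = M.f (M.ι d) := by
      rw [pw, td, ← pw]
      simp
    have := hfree _ _ h0
    omega
  have e1 : M.f d = (a ^ (M.γ d + M.h (M.ι d))) (M.f (M.φ (M.ι d))) := by
    rw [pw, ← te, ← pw]
    simp
  have htgt : ∀ x, x ≠ d → x ≠ M.ι d → (a ^ M.γ x) (M.f (M.ι x)) = (a ^ H x) (M.f (F x)) := by
    intro x h1 h2
    have tx := M.tgt x
    simp only [F, H]
    split_ifs with c1
    · rw [tx, c1, e1, ← pw, hγ, hd]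
      congr 2
      ring
    · exact tx
  let M' := subMap M d F H hF hinj htgt
  have hr : ∀ x : D, (∃ x' : {x : D // x ≠ d ∧ x ≠ M.ι d}, x'.1 = x) ↔ (x ≠ d ∧ x ≠ M.ι d) := by
    intro x
    constructor
    · rintro ⟨x', rfl⟩
      exact x'.2
    · intro h
      exact ⟨⟨x, h⟩, rfl⟩
  have hφ : ∀ x : {x : D // x ≠ d ∧ x ≠ M.ι d}, (M'.φ x).1 = F x.1 := fun _ => rfl
  have p1 : P1 M.toDMap M'.toDMap (fun x => x.1) := by
    intro T g hg x
    show g (M'.φ x).1 = g (M.φ x.1)
    rw [hφ]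
    simp only [F]
    split_ifs with c1
    · rw [c1, hg, M.ιι]
    · rfl
  have p2 : P2 M.toDMap M'.toDMap (fun x => x.1) d := by
    intro T g'
    let E : D → D := fun x => if x = d then M.φ (M.ι d) else if x = M.ι d then M.φ (M.ι d) else x
    have hE : ∀ x, E x ≠ d ∧ E x ≠ M.ι d := by
      intro x
      simp only [E]
      split_ifs with c1 c2
      · exact ⟨hq, hqe⟩
      · exact ⟨hq, hqe⟩
      · exact ⟨c1, c2⟩
    refine ⟨fun x => g' ⟨E x, hE x⟩, ?_, ?_, ?_, ?_⟩
    · intro x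
      have : E x.1 = x.1 := by
        simp only [E]
        rw [if_neg x.2.1, if_neg x.2.2]
      show g' ⟨E x.1, _⟩ = g' x
      congr 1
      exact Subtype.ext this
    · intro x
      show g' ⟨E (M.φ x.1), _⟩ = g' (M'.φ x)
      congr 1
      apply Subtype.ext
      show E (M.φ x.1) = F x.1
      have h3 : M.φ x.1 ≠ M.ι d := fun h => x.2.1 (hJ _ _ (h.trans hd.symm))
      simp only [E, F]
      rw [if_neg h3]
    · show g' ⟨E (M.φ d), _⟩ = g' ⟨E (M.ι d), _⟩
      congr 1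
      apply Subtype.ext
      show E (M.φ d) = E (M.ι d)
      rw [hd]
    · show g' ⟨E (M.φ (M.ι d)), _⟩ = g' ⟨E d, _⟩
      congr 1
      apply Subtype.ext
      show E (M.φ (M.ι d)) = E d
      simp only [E]
      rw [if_neg hq, if_neg hqe]
      simp
  refine ⟨{x : D // x ≠ d ∧ x ≠ M.ι d}, inferInstance, M', fun x => x.1,
    Subtype.val_injective, hr, fun _ => rfl, fun _ => rfl, fun _ => rfl, fun _ => rfl,
    fun _ => rfl, ?_, ?_⟩
  · exact sameV_iff hr (fun _ => rfl) p1 p2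
  · exact planar_tr hr (fun _ => rfl) p1 p2

end MSG.H09
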