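import Pool.Agent.Lib.MP_acafa7_al.MS.H09.DelEdge

/-! The shifts of a closed component add up to zero. -/

namespace MSG.H09

open MSG Classical

theorem exists_height {V : Type} (a : Equiv.Perm V)
    (hfree : ∀ (x : V) (n : ℤ), (a ^ n) x = x → n = 0) :
    ∃ N : V → ℤ, ∀ (m : ℤ) (x : V), N ((a ^ m) x) = m + N x := by
  let r : Setoid V :=
    { r := fun x y => ∃ n : ℤ, (a ^ n) y = x
      iseqv :=
        { refl := fun x => ⟨0, by simp⟩
          symm := by
            rintro x y ⟨n, hn⟩
            refine ⟨-n, ?_⟩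
            rw [← hn, ← pw]
            simp
          trans := by
            rintro x y z ⟨n, hn⟩ ⟨m, hm⟩
            refine ⟨n + m, ?_⟩
            rw [pw, hm, hn] } }
  have hex : ∀ x : V, ∃ n : ℤ, (a ^ n) (Quotient.mk r x).out = x := by
    intro x
    have : r.r x (Quotient.mk r x).out := r.symm' (Quotient.mk_out x)
    exact this
  choose N hN using hex
  refine ⟨N, fun m x => ?_⟩
  have hq : (Quotient.mk r ((a ^ m) x)) = Quotient.mk r x := Quotient.sound ⟨m, rfl⟩
  have h1 := hN ((a ^ m) x)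
  rw [hq] at h1
  have h2 := hN x
  have h3 : (a ^ (-(m + N x) + N ((a ^ m) x))) (Quotient.mk r x).out = (Quotient.mk r x).out := by
    rw [pw, h1]
    nth_rewrite 2 [← h2]
    rw [← pw, ← pw]
    simp
  have := hfree _ _ h3
  omega

theorem mem_iff_perm {D : Type} [Fintype D] (σ : Equiv.Perm D) (C : Set D)
    (h : ∀ d ∈ C, σ d ∈ C) (d : D) : d ∈ C ↔ σ d ∈ C := by
  constructor
  · exact h d
  · intro hd
    let S : Finset D := Finset.univ.filter (fun x => x ∈ C)
    have hsub : S.map σ.toEmbedding ⊆ S := by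
      intro x hx
      rw [Finset.mem_map] at hx
      obtain ⟨y, hy, rfl⟩ := hx
      have : y ∈ C := (Finset.mem_filter.1 hy).2
      exact Finset.mem_filter.2 ⟨Finset.mem_univ _, h y this⟩
    have heq : S.map σ.toEmbedding = S :=
      Finset.eq_of_subset_of_card_le hsub (by rw [Finset.card_map])
    have hm : σ d ∈ S := Finset.mem_filter.2 ⟨Finset.mem_univ _, hd⟩
    rw [← heq, Finset.mem_map] at hm
    obtain ⟨y, hy, hyd⟩ := hm
    have : y = d := σ.injective hyd
    rw [← this]
    exact (Finset.mem_filter.1 hy).2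

theorem sum_reindex {D : Type} [Fintype D] (σ : Equiv.Perm D) (C : Set D)
    (h : ∀ d ∈ C, σ d ∈ C) (g : D → ℤ) :
    ∑ d : D, (if d ∈ C then g (σ d) else 0) = ∑ d : D, (if d ∈ C then g d else 0) := by
  rw [← Equiv.sum_comp σ (fun d => if d ∈ C then g d else 0)]
  refine Finset.sum_congr rfl (fun d _ => ?_)
  by_cases hd : d ∈ C
  · rw [if_pos hd, if_pos (h d hd)]
  · rw [if_neg hd, if_neg (fun h' => hd ((mem_iff_perm σ C h d).2 h'))]

theorem vh : VhStatement := by
  intro V D _ a hfree M C hC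
  obtain ⟨N, hN⟩ := exists_height a hfree
  have e : ∀ d, M.γ d + N (M.f (M.ι d)) = M.h d + N (M.f (M.φ d)) := by
    intro d
    have := congrArg N (M.tgt d)
    rw [hN, hN] at this
    exact this
  have s1 := sum_reindex M.φ C (fun d hd => (hC d hd).1) (fun d => N (M.f d))
  have s2 := sum_reindex M.ι C (fun d hd => (hC d hd).2) (fun d => N (M.f d))
  have s3 := sum_reindex M.ι C (fun d hd => (hC d hd).2) (fun d => M.γ d)
  have s4 : ∑ d : D, (if d ∈ C then M.γ (M.ι d) else 0) =
      - ∑ d : D, (if d ∈ C then M.γ d else 0) := by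
    rw [← Finset.sum_neg_distrib]
    refine Finset.sum_congr rfl (fun d _ => ?_)
    by_cases hd : d ∈ C
    · rw [if_pos hd, if_pos hd, M.γι]
    · rw [if_neg hd, if_neg hd, neg_zero]
  have s5 : ∑ d : D, (if d ∈ C then M.γ d else 0) = 0 := by
    rw [s4] at s3
    omega
  have s6 : ∑ d : D, (if d ∈ C then M.h d else 0) + ∑ d : D, (if d ∈ C then N (M.f (M.φ d)) else 0)
      = ∑ d : D, (if d ∈ C then M.γ d else 0) + ∑ d : D, (if d ∈ C then N (M.f (M.ι d)) else 0) := by
    rw [← Finset.sum_add_distrib, ← Finset.sum_add_distrib]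
    refine Finset.sum_congr rfl (fun d _ => ?_)
    by_cases hd : d ∈ C
    · rw [if_pos hd, if_pos hd, if_pos hd, if_pos hd, e]
    · rw [if_neg hd, if_neg hd, if_neg hd, if_neg hd]
  rw [s1, s2, s5] at s6
  omega

end MSG.H09
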