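import Pool.Agent.Lib.MP_acafa7_al.MS.Iface1

/-! Deleting an edge `{d, ι d}` of a map: general transfer of `SameV` and planarity. -/

namespace MSG.H09

open MSG

theorem pw {V : Type} (a : Equiv.Perm V) (m n : ℤ) (x : V) :
    (a ^ (m + n)) x = (a ^ m) ((a ^ n) x) := by
  rw [zpow_add, Equiv.Perm.mul_apply]

section gen

variable {D D' : Type} (M : DMap D) (M' : DMap D') (j : D' → D) (d : D)

/-- restriction of vertex functions -/
def P1 : Prop := ∀ (T : Type) (g : D → T), (∀ z, g (M.φ z) = g (M.ι z)) →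
  ∀ x, g (j (M'.φ x)) = g (M.φ (j x))

/-- extension of functions -/
def P2 : Prop := ∀ (T : Type) (g' : D' → T), ∃ g : D → T, (∀ x, g (j x) = g' x) ∧
  (∀ x, g (M.φ (j x)) = g' (M'.φ x)) ∧ g (M.φ d) = g (M.ι d) ∧ g (M.φ (M.ι d)) = g d

variable {M M' j d}

theorem sameV_iff (hr : ∀ x, (∃ x', j x' = x) ↔ (x ≠ d ∧ x ≠ M.ι d))
    (hι : ∀ x, j (M'.ι x) = M.ι (j x)) (p1 : P1 M M' j) (p2 : P2 M M' j d) (x y : D') :
    M'.SameV x y ↔ M.SameV (j x) (j y) := by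
  constructor
  · intro h g hg
    have hg' : ∀ z, g (M.φ z) = g (M.ι z) := fun z => propext (hg z)
    refine h (fun z => g (j z)) ?_
    intro z
    show g (j (M'.φ z)) ↔ g (j (M'.ι z))
    rw [p1 Prop g hg' z, hι z]
    exact hg (j z)
  · intro h g' hg'
    obtain ⟨g, e1, e2, e3, e4⟩ := p2 Prop g'
    have key : ∀ z, g (M.φ z) ↔ g (M.ι z) := by
      intro z
      by_cases h1 : z = d
      · subst h1
        rw [e3]
      by_cases h2 : z = M.ι d
      · subst h2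
        rw [e4, M.ιι]
      obtain ⟨z', rfl⟩ := (hr z).2 ⟨h1, h2⟩
      rw [e2, ← hι, e1]
      exact hg' z'
    have := h g key
    rw [e1, e1] at this
    exact this

theorem planar_tr (hr : ∀ x, (∃ x', j x' = x) ↔ (x ≠ d ∧ x ≠ M.ι d))
    (hι : ∀ x, j (M'.ι x) = M.ι (j x)) (p1 : P1 M M' j) (p2 : P2 M M' j d) (hM : M.Planar) :
    M'.Planar := by
  intro k' hk'
  obtain ⟨k, e1, e2, e3, e4⟩ := p2 (ZMod 2) k'
  have key : ∀ z, k (M.φ (M.ι z)) + k (M.ι z) = k (M.φ z) + k z := by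
    intro z
    by_cases h1 : z = d
    · subst h1
      rw [e3, e4, add_comm]
    by_cases h2 : z = M.ι d
    · subst h2
      rw [e4, M.ιι, e3, add_comm]
    obtain ⟨z', rfl⟩ := (hr z).2 ⟨h1, h2⟩
    rw [← hι, e2, e2, e1, e1]
    exact hk' z'
  obtain ⟨h, h1, h2⟩ := hM k key
  refine ⟨fun x => h (j x), ?_, ?_⟩
  · intro x
    show h (j (M'.φ x)) = h (j (M'.ι x))
    rw [p1 _ h h1 x, hι]
    exact h1 (j x)
  · intro x
    show k' (M'.φ x) + h (j (M'.φ x)) = k' x + h (j x)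
    rw [p1 _ h h1 x, ← e2, ← e1]
    exact h2 (j x)

end gen

/-- A map on the complement of an edge. -/
noncomputable def subMap {V D : Type} [Fintype D] {a : Equiv.Perm V} (M : LMap V D a) (d : D)
    (F : D → D) (H : D → ℤ) (hF : ∀ x, x ≠ d → x ≠ M.ι d → F x ≠ d ∧ F x ≠ M.ι d)
    (hinj : ∀ x y, x ≠ d → x ≠ M.ι d → y ≠ d → y ≠ M.ι d → F x = F y → x = y)
    (htgt : ∀ x, x ≠ d → x ≠ M.ι d → (a ^ M.γ x) (M.f (M.ι x)) = (a ^ H x) (M.f (F x))) :
    LMap V {x : D // x ≠ d ∧ x ≠ M.ι d} a where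
  φ := Equiv.ofBijective (fun x => ⟨F x.1, hF x.1 x.2.1 x.2.2⟩)
    (Finite.injective_iff_bijective.1 (fun x y h => Subtype.ext
      (hinj x.1 y.1 x.2.1 x.2.2 y.2.1 y.2.2 (congrArg Subtype.val h))))
  ι :=
    { toFun := fun x => ⟨M.ι x.1, fun h => x.2.2 ((M.ιι x.1).symm.trans (congrArg M.ι h)),
        fun h => x.2.1 (M.ι.injective h)⟩
      invFun := fun x => ⟨M.ι x.1, fun h => x.2.2 ((M.ιι x.1).symm.trans (congrArg M.ι h)),
        fun h => x.2.1 (M.ι.injective h)⟩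
      left_inv := fun _ => Subtype.ext (M.ιι _)
      right_inv := fun _ => Subtype.ext (M.ιι _) }
  ιι := fun _ => Subtype.ext (M.ιι _)
  ne := fun x h => M.ne x.1 (congrArg Subtype.val h)
  f := fun x => M.f x.1
  γ := fun x => M.γ x.1
  h := fun x => H x.1
  γι := fun x => M.γι x.1
  tgt := fun x => htgt x.1 x.2.1 x.2.2

end MSG.H09
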